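import Pool.Agent.H24.Evil2

namespace Pool.Agent.Results.MP_df1cff_co.No

open Pool.Agent.H24.Evil

theorem result : ∃ A : Set Gm, Sat A ∧ Closed A ∧ (∀ G ∈ A, Dicotic G) ∧ Gm.star ∈ A ∧
    (∃ K, Sat K ∧ EvilKernel A K) ∧ ∀ K, EvilKernel A K → ¬ EvillyNormal A K := by
  refine ⟨AA, fun G H h ⟨v, a⟩ => ⟨v, a.ident h⟩,
    ⟨fun G ⟨v, a⟩ H ⟨w, b⟩ => ⟨_, a.add b⟩, fun G h x hx => AA_sub h hx⟩, ?_, ⟨_, r1⟩,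
    ⟨KK, fun G H h ⟨v, a, b⟩ => ⟨v, a.ident h, b⟩, KK_kernel⟩, fun K => not_normal⟩
  intro G h x hx
  obtain ⟨v, a⟩ := AA_sub h hx
  rw [a.nil, a.nil]

end Pool.Agent.Results.MP_df1cff_co.No
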